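import Pool.Agent.H360R2.RG.Main

open Filter

namespace Pool.Agent.Results.MP_67227b_nt.Clusters

/-- multiplicity of `s` as a zero of the Riemann zeta function (order of vanishing at `s`) -/
noncomputable def zmult (s : ℂ) : ℕ := analyticOrderNatAt riemannZeta s

/-- the number of nontrivial zeros of `ζ` with ordinate in `(0, t]`, with multiplicity -/
noncomputable def NZ (t : ℝ) : ℕ :=
  ∑ᶠ s ∈ {s : ℂ | riemannZeta s = 0 ∧ 0 < s.re ∧ s.re < 1 ∧ 0 < s.im ∧ s.im ≤ t}, zmult s

/-- for `n ≥ 1`: the `n`-th positive ordinate `γ n` of a nontrivial zero of `ζ`, the ordinates being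
listed in nondecreasing order and repeated according to multiplicity -/
noncomputable def γ (n : ℕ) : ℝ := sInf {t : ℝ | n ≤ NZ t}

/-- `N_k(T; B)` with `k = r + 1` and `B = ∏ [a_i, b_i]`: the number of `k`-tuples of pairwise
distinct indices with ordinates at most `T` whose normalised differences with the last ordinate
lie in the box `B` -/
noncomputable def Nk (r : ℕ) (T : ℝ) (a b : Fin r → ℝ) : ℕ :=
  {j : Fin (r + 1) → ℕ | Function.Injective j ∧ (∀ i, 1 ≤ j i ∧ γ (j i) ≤ T) ∧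
    ∀ i : Fin r, (γ (j i.castSucc) - γ (j (Fin.last r))) * (Real.log T / (2 * Real.pi)) ∈
      Set.Icc (a i) (b i)}.ncard

/-- `λ(c) = (4/π) ∫_0^1 (sin(πcv/2)/v) (1-v) dv` -/
noncomputable def lam (c : ℝ) : ℝ :=
  4 / Real.pi * ∫ v in (0 : ℝ)..1, Real.sin (Real.pi * c * v / 2) / v * (1 - v)

/-- On the Riemann hypothesis, for `k = r + 1 ≥ 2`, every `c > 0` with `c + λ(c) > k - 1` and every
box `B = ∏ [a_i, b_i]` containing `[0, c]^(k-1)`, one has `N_k(T; B) ≫ T log T`; the pair `k = 3`,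
`c = 26/25` is admissible. -/
theorem result (RH : RiemannHypothesis) :
    (∀ r : ℕ, 1 ≤ r → ∀ c : ℝ, 0 < c → r < c + lam c →
      ∀ a b : Fin r → ℝ, (∀ i, a i ≤ 0) → (∀ i, c ≤ b i) →
      ∃ κ : ℝ, 0 < κ ∧ ∀ᶠ T : ℝ in atTop,
        κ * (T / (2 * Real.pi) * Real.log T) ≤ (Nk r T a b : ℝ)) ∧
    (2 : ℝ) < 26 / 25 + lam (26 / 25) := by
  have hRHs : SP.RHs := by
    intro s h1 h2 h0
    apply RH s h0
    · rintro ⟨k, hk⟩
      have := congrArg Complex.re hk
      simp at this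
      have hk0 : (0 : ℝ) ≤ k := Nat.cast_nonneg k
      linarith
    · intro h; rw [h] at h2; simp at h2
  have hlam : ∀ c : ℝ, RGap.lam1 c = lam c := RGap.lam1_eq
  constructor
  · intro r hr c hc h a b ha hb
    have h1 : (r : ℝ) - c < RGap.lam1 c := by
      rw [hlam]
      linarith
    have h3 := ((RGap.CRIT_main hRHs r c hr hc).2 h1).2
    exact h3.tuples a b ha hb
  · have h4 : (24 / 25 : ℝ) < RGap.lam1 (26 / 25) := RGap.NUM1_main
    rw [hlam] at h4
    linarith

end Pool.Agent.Results.MP_67227b_nt.Clusters
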