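import Pool.Agent.H295R2.Iso.B

/-!
# Isolated simple critical zeros of zeta in all short intervals, unconditionally

In every interval `(T, T + H]` with `T^h ≤ H ≤ T` a proportion `1 - (c(h) - 1) / K(h r)² - ε` of
the zeros of zeta are simple, lie on the critical line, and have no other zero within `r` times the
mean spacing (in a box around them).
-/

open Filter Topology MeasureTheory

namespace Pool.Agent.Results.MP_67227b_nt.IsolatedShort

/-- the nontrivial zeros of zeta with ordinate in `(T, T + H]` -/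
def zeros (T H : ℝ) : Set ℂ :=
  {s : ℂ | riemannZeta s = 0 ∧ 0 < s.re ∧ s.re < 1 ∧ T < s.im ∧ s.im ≤ T + H}

/-- the number of nontrivial zeros with ordinate in `(T, T + H]`, counted with multiplicity -/
noncomputable def N (T H : ℝ) : ℕ := ∑ᶠ s ∈ zeros T H, analyticOrderNatAt riemannZeta s

/-- `s` is on the critical line, is a simple zero, and no other nontrivial zero lies in the closed
box with centre `s`, half height `2πr / log T` and half width `(2/5) 2π / (h log T)` -/
def Isolated (h r T : ℝ) (s : ℂ) : Prop :=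
  s.re = 1 / 2 ∧ analyticOrderNatAt riemannZeta s = 1 ∧
    ∀ s' : ℂ, riemannZeta s' = 0 → 0 < s'.re → s'.re < 1 → s' ≠ s →
      ¬ (|s'.im - s.im| ≤ r * (2 * Real.pi / Real.log T) ∧
        |s'.re - 1 / 2| ≤ 2 / 5 * (2 * Real.pi / (h * Real.log T)))

/-- the number of isolated simple critical zeros with ordinate in `(T, T + H]` -/
noncomputable def NI (h r T H : ℝ) : ℕ := {s : ℂ | s ∈ zeros T H ∧ Isolated h r T s}.ncard

/-- the Montgomery-Taylor kernel at `r` times the mean spacing -/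
noncomputable def K (r : ℝ) : ℝ :=
  (∫ t in (-1 / 2 : ℝ)..(1 / 2), Real.cos (Real.sqrt 2 * t) * Real.cos (2 * Real.pi * r * t)) /
    (Real.sqrt 2 * Real.sin (1 / Real.sqrt 2))

/-- the Montgomery-Taylor constant -/
noncomputable def cMT : ℝ :=
  Real.sqrt 2 * Real.tan (1 / Real.sqrt 2) / (1 + Real.tan (1 / Real.sqrt 2) / Real.sqrt 2)

/-- the mean square of the Montgomery-Taylor window -/
noncomputable def R0 : ℝ :=
  (1 + Real.sin (Real.sqrt 2) / Real.sqrt 2) / (4 * Real.sin (1 / Real.sqrt 2) ^ 2)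

/-- the constant for intervals of length `T^h`; for `h = 1` it is `cMT⁻¹` -/
noncomputable def c (h : ℝ) : ℝ := R0 / h + h * (cMT⁻¹ - R0)

theorem zeros_eq (T H : ℝ) : zeros T H = H370.zset riemannZeta T (T + H) := by
  ext s
  simp only [zeros, H370.zset, Set.mem_ofPred_eq]
  tauto

/-- the sets of zeros that are counted are finite -/
theorem zeros_finite {T : ℝ} (hT : 1 ≤ T) (H : ℝ) : (zeros T H).Finite := by
  rw [zeros_eq]
  exact H370.zset_finite H370.good_zeta T (T + H) hT

theorem N_eq (T H : ℝ) : N T H = H370.NN riemannZeta T (T + H) := by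
  unfold N H370.NN H370.mult
  rw [zeros_eq]

theorem NI_eq (h r T H : ℝ) : NI h r T H = H295Iso.isoN riemannZeta T H
    (2 * Real.pi * r / Real.log T) (4 * Real.pi / 5 / (h * Real.log T)) := by
  unfold NI H295Iso.isoN H295Iso.isoSet
  congr 1
  ext s
  have e1 : r * (2 * Real.pi / Real.log T) = 2 * Real.pi * r / Real.log T := by ring
  have e2 : 2 / 5 * (2 * Real.pi / (h * Real.log T)) = 4 * Real.pi / 5 / (h * Real.log T) := by
    ring
  simp only [Isolated, zeros_eq, Set.mem_ofPred_eq, H370.mult, e1, e2, not_and, not_le]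

theorem K_eq (r : ℝ) : K r = H344.KK r := by
  have h := H370.GramAux.kap_re_mul (2 * Real.pi * r)
  have hd := H370.GramAux.den_pos.ne'
  unfold K H344.KK
  rw [← h, mul_div_cancel_left₀ _ hd]

theorem c_eq {h : ℝ} (hh : 0 < h) : c h = H295Iso.c0 h := by
  have h1 : cMT⁻¹ = H370.cMTinv := H370.cMTinv_eq
  have h2 := H228SI.constS 1 one_pos le_rfl
  have h4 : Real.sqrt 2 / 2 = 1 / Real.sqrt 2 := by
    rw [div_eq_div_iff (by norm_num) (by positivity), Real.mul_self_sqrt (by norm_num), one_mul]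
  have h3 : H295SI.RS (Real.sqrt 2) 0 = R0 := by
    unfold H295SI.RS R0
    have hs : Real.sqrt 2 ^ 2 = 2 := Real.sq_sqrt (by norm_num)
    rw [if_pos (by norm_num), hs, h4]
    simp only [abs_zero, sub_zero, mul_zero, Real.cos_zero, mul_one]
    ring
  have h5 : H295SI.cc 1 = H370.cMTinv := by
    unfold H295SI.cc H370.cMTinv
    rfl
  rw [mul_one, h5] at h2
  unfold c H295Iso.c0 H295SI.cR
  unfold H295SI.cR at h2
  rw [h3] at h2 ⊢
  rw [h1, ← h2]
  ring

theorem result (h r ε : ℝ) (hh : 0 < h) (hh1 : h ≤ 1) (hr0 : 0 ≤ r) (hr : h * r ≤ 1 / 3)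
    (hε : 0 < ε) :
    ∃ T₀ : ℝ, ∀ T : ℝ, T₀ ≤ T → ∀ H : ℝ, T ^ h ≤ H → H ≤ T →
      (1 - (c h - 1) / K (h * r) ^ 2 - ε) * (N T H : ℝ) ≤ (NI h r T H : ℝ) := by
  obtain ⟨T0, -, hT0⟩ := H295Iso.iso_short H370.good_zeta hh hh1 hr0 hr hε
  refine ⟨T0, fun T hT H hH hHT => ?_⟩
  rw [N_eq, NI_eq, c_eq hh, K_eq]
  exact hT0 T hT H hH hHT

end Pool.Agent.Results.MP_67227b_nt.IsolatedShort
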