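import Pool.Agent.H360R2.RG.Main

open Filter

namespace Pool.Agent.Results.MP_67227b_nt.LargeClusters

/-- multiplicity of `s` as a zero of the Riemann zeta function (order of vanishing at `s`) -/
noncomputable def zmult (s : ℂ) : ℕ := analyticOrderNatAt riemannZeta s

/-- the number of nontrivial zeros of `ζ` with ordinate in `(0, t]`, with multiplicity -/
noncomputable def NZ (t : ℝ) : ℕ :=
  ∑ᶠ s ∈ {s : ℂ | riemannZeta s = 0 ∧ 0 < s.re ∧ s.re < 1 ∧ 0 < s.im ∧ s.im ≤ t}, zmult s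

/-- for `n ≥ 1`: the `n`-th positive ordinate `γ n` of a nontrivial zero of `ζ`, the ordinates being
listed in nondecreasing order and repeated according to multiplicity -/
noncomputable def γ (n : ℕ) : ℝ := sInf {t : ℝ | n ≤ NZ t}

/-- `N_k(T; B)` with `k = r + 1` and `B = ∏ [a_i, b_i]`: the number of `k`-tuples of pairwise
distinct indices with ordinates at most `T` whose normalised differences with the last ordinate
lie in the box `B` -/
noncomputable def Nk (r : ℕ) (T : ℝ) (a b : Fin r → ℝ) : ℕ :=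
  {j : Fin (r + 1) → ℕ | Function.Injective j ∧ (∀ i, 1 ≤ j i ∧ γ (j i) ≤ T) ∧
    ∀ i : Fin r, (γ (j i.castSucc) - γ (j (Fin.last r))) * (Real.log T / (2 * Real.pi)) ∈
      Set.Icc (a i) (b i)}.ncard

/-- On the Riemann hypothesis, for every `ε > 0` and all large `k = r + 1`: for every box
`B = ∏ [a_i, b_i]` containing `[0, c]^(k-1)`, `c = (k-1) - (2-ε) √(k-1)`, one has
`N_k(T; B) ≫ T log T`. -/
theorem result (RH : RiemannHypothesis) (ε : ℝ) (hε : 0 < ε) :
    ∃ r0 : ℕ, ∀ r : ℕ, r0 ≤ r → ∀ a b : Fin r → ℝ, (∀ i, a i ≤ 0) →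
      (∀ i, (r : ℝ) - (2 - ε) * Real.sqrt r ≤ b i) →
      ∃ κ : ℝ, 0 < κ ∧ ∀ᶠ T : ℝ in atTop,
        κ * (T / (2 * Real.pi) * Real.log T) ≤ (Nk r T a b : ℝ) := by
  have hRHs : SP.RHs := by
    intro s h1 h2 h0
    apply RH s h0
    · rintro ⟨k, hk⟩
      have := congrArg Complex.re hk
      simp at this
      have hk0 : (0 : ℝ) ≤ k := Nat.cast_nonneg k
      linarith
    · intro h; rw [h] at h2; simp at h2
  obtain ⟨k0, h0⟩ := RGap.ASYM_main hRHs ε hε
  refine ⟨k0, fun r hr a b ha hb => ?_⟩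
  exact (h0 r hr).2.2.tuples a b ha hb

end Pool.Agent.Results.MP_67227b_nt.LargeClusters
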